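import Mathlib

/-!
The largest possible gap between the strong vertex span and the strong edge span is exactly one.
-/

namespace Pool.Agent.Results.MP_5796a1_co.SpanGap

open SimpleGraph

/-- weak homomorphism between graphs: an edge is either contracted or mapped to an edge -/
def IsWeakHom {U V : Type} (G : SimpleGraph U) (H : SimpleGraph V) (f : U → V) : Prop :=
  ∀ u v, G.Adj u v → f u = f v ∨ H.Adj (f u) (f v)

/-- edge surjectivity of a map: surjective on vertices and every edge of `H` is the image of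
an edge of `G` -/
def IsEdgeSurj {U V : Type} (G : SimpleGraph U) (H : SimpleGraph V) (f : U → V) : Prop :=
  Function.Surjective f ∧ ∀ u v, H.Adj u v → ∃ x y, G.Adj x y ∧ f x = u ∧ f y = v

/-- `m_G(f,g)`, the smallest distance between `f u` and `g u` -/
noncomputable def minDist {U V : Type} (H : SimpleGraph V) (f g : U → V) : ℕ :=
  ⨅ u : U, H.dist (f u) (g u)

/-- all values `m_P(f,g)` over paths `P` and surjective weak homomorphisms `f, g : P → H` -/
def vertexValues {V : Type} (H : SimpleGraph V) : Set ℕ :=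
  {m | ∃ (n : ℕ) (f g : Fin n → V), IsWeakHom (pathGraph n) H f ∧ IsWeakHom (pathGraph n) H g ∧
    Function.Surjective f ∧ Function.Surjective g ∧ m = minDist H f g}

/-- all values `m_P(f,g)` over paths `P` and edge surjective weak homomorphisms `f, g : P → H` -/
def edgeValues {V : Type} (H : SimpleGraph V) : Set ℕ :=
  {m | ∃ (n : ℕ) (f g : Fin n → V), IsWeakHom (pathGraph n) H f ∧ IsWeakHom (pathGraph n) H g ∧
    IsEdgeSurj (pathGraph n) H f ∧ IsEdgeSurj (pathGraph n) H g ∧ m = minDist H f g}

/-- the strong vertex span `σ_V(H)` -/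
noncomputable def strongVertexSpan {V : Type} (H : SimpleGraph V) : ℕ := sSup (vertexValues H)

/-- the strong edge span `σ_E(H)` -/
noncomputable def strongEdgeSpan {V : Type} (H : SimpleGraph V) : ℕ := sSup (edgeValues H)

/-! ### The upper bound -/

/-- the graph of positions of the two walkers which keep distance at least `s - 1` -/
def PG {V : Type} (H : SimpleGraph V) (s : ℕ) : SimpleGraph (V × V) where
  Adj p q := p ≠ q ∧ (p.1 = q.1 ∨ H.Adj p.1 q.1) ∧ (p.2 = q.2 ∨ H.Adj p.2 q.2) ∧
    s ≤ H.dist p.1 p.2 + 1 ∧ s ≤ H.dist q.1 q.2 + 1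
  symm := ⟨fun _ _ h => ⟨h.1.symm, h.2.1.imp Eq.symm (fun h => h.symm),
    h.2.2.1.imp Eq.symm (fun h => h.symm), h.2.2.2.2, h.2.2.2.1⟩⟩
  loopless := ⟨fun _ h => h.1 rfl⟩

theorem cover {W : Type} (G : SimpleGraph W) (p0 : W) (L : List (W × W))
    (hL : ∀ e ∈ L, G.Adj e.1 e.2 ∧ G.Reachable p0 e.1) (M : List W)
    (hM : ∀ x ∈ M, G.Reachable p0 x) :
    ∃ w : G.Walk p0 p0, (∀ e ∈ L, s(e.1, e.2) ∈ w.edges) ∧ (∀ x ∈ M, x ∈ w.support) := by
  induction L with
  | nil =>
    induction M with
    | nil => exact ⟨Walk.nil, by simp, by simp⟩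
    | cons x M ih =>
      obtain ⟨w, _, hw⟩ := ih (fun y hy => hM y (List.mem_cons_of_mem _ hy))
      obtain ⟨r⟩ := hM x List.mem_cons_self
      refine ⟨(r.append r.reverse).append w, by simp, ?_⟩
      intro y hy
      rw [Walk.mem_support_append_iff, Walk.mem_support_append_iff]
      rcases List.mem_cons.1 hy with rfl | hy
      · exact Or.inl (Or.inl (Walk.end_mem_support _))
      · exact Or.inr (hw y hy)
  | cons e L ih =>
    obtain ⟨w, hw1, hw2⟩ := ih (fun y hy => hL y (List.mem_cons_of_mem _ hy))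
    obtain ⟨hadj, ⟨r⟩⟩ := hL e List.mem_cons_self
    refine ⟨((r.append (Walk.cons hadj (Walk.cons hadj.symm Walk.nil))).append r.reverse).append w,
      ?_, ?_⟩
    · intro y hy
      simp only [Walk.edges_append, Walk.edges_cons, List.mem_append, List.mem_cons]
      rcases List.mem_cons.1 hy with rfl | hy
      · tauto
      · exact Or.inr (hw1 y hy)
    · intro y hy
      rw [Walk.mem_support_append_iff]
      exact Or.inr (hw2 y hy)

theorem minDist_le {U V : Type} (H : SimpleGraph V) (f g : U → V) (u : U) :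
    minDist H f g ≤ H.dist (f u) (g u) :=
  ciInf_le (OrderBot.bddBelow _) u

theorem le_minDist {U V : Type} [Nonempty U] (H : SimpleGraph V) (f g : U → V) (s : ℕ)
    (h : ∀ u, s ≤ H.dist (f u) (g u)) : s ≤ minDist H f g :=
  le_ciInf h

theorem upper {V : Type} [Fintype V] (H : SimpleGraph V) (hH : H.Connected) (m : ℕ)
    (hm : m ∈ vertexValues H) : ∃ m' ∈ edgeValues H, m ≤ m' + 1 := by
  classical
  obtain ⟨n, f, g, hf, hg, hfs, hgs, rfl⟩ := hm
  have hne : Nonempty V := hH.nonempty
  have hn : 0 < n := by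
    obtain ⟨v⟩ := hne
    obtain ⟨x, _⟩ := hfs v
    exact lt_of_le_of_lt (Nat.zero_le _) x.2
  set s := minDist H f g with hs
  have hd : ∀ i, s ≤ H.dist (f i) (g i) := fun i => minDist_le H f g i
  let p : Fin n → V × V := fun i => (f i, g i)
  let z : Fin n := ⟨0, hn⟩
  -- all positions are reachable
  have hreach : ∀ k : ℕ, ∀ hk : k < n, (PG H s).Reachable (p z) (p ⟨k, hk⟩) := by
    intro k
    induction k with
    | zero => intro hk; exact Reachable.refl _
    | succ k ih =>
      intro hk
      have h1 := ih (by omega)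
      by_cases heq : p ⟨k, by omega⟩ = p ⟨k+1, hk⟩
      · rw [← heq]; exact h1
      · refine h1.trans (Adj.reachable ?_)
        refine ⟨heq, ?_, ?_, ?_, ?_⟩
        · exact hf _ _ (by rw [pathGraph_adj]; left; rfl)
        · exact hg _ _ (by rw [pathGraph_adj]; left; rfl)
        · exact (hd _).trans (Nat.le_succ _)
        · exact (hd _).trans (Nat.le_succ _)
  have hreach' : ∀ i : Fin n, (PG H s).Reachable (p z) (p i) := fun i => hreach i.1 i.2
  -- the transitions we want to see
  let L1 : List ((V × V) × (V × V)) :=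
    (Finset.univ.filter (fun e : Fin n × V => H.Adj (f e.1) e.2)).toList.map
      (fun e => (p e.1, (e.2, g e.1)))
  let L2 : List ((V × V) × (V × V)) :=
    (Finset.univ.filter (fun e : Fin n × V => H.Adj (g e.1) e.2)).toList.map
      (fun e => (p e.1, (f e.1, e.2)))
  let M : List (V × V) := (Finset.univ : Finset (Fin n)).toList.map p
  have hL : ∀ e ∈ L1 ++ L2, (PG H s).Adj e.1 e.2 ∧ (PG H s).Reachable (p z) e.1 := by
    intro e he
    rcases List.mem_append.1 he with he | he
    · obtain ⟨⟨i, v⟩, h1, rfl⟩ := List.mem_map.1 he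
      have hadj : H.Adj (f i) v := by simpa using h1
      refine ⟨⟨?_, Or.inr hadj, Or.inl rfl, (hd i).trans (Nat.le_succ _), ?_⟩, hreach' i⟩
      · intro h
        exact hadj.ne (congrArg Prod.fst h)
      · have h3 := hd i
        have h4 : H.dist (f i) (g i) ≤ H.dist (f i) v + H.dist v (g i) := hH.dist_triangle
        have h5 : H.dist (f i) v = 1 := dist_eq_one_iff_adj.2 hadj
        show s ≤ H.dist v (g i) + 1
        omega
    · obtain ⟨⟨i, v⟩, h1, rfl⟩ := List.mem_map.1 he
      have hadj : H.Adj (g i) v := by simpa using h1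
      refine ⟨⟨?_, Or.inl rfl, Or.inr hadj, (hd i).trans (Nat.le_succ _), ?_⟩, hreach' i⟩
      · intro h
        exact hadj.ne (congrArg Prod.snd h)
      · have h3 := hd i
        have h4 : H.dist (f i) (g i) ≤ H.dist (f i) v + H.dist v (g i) := hH.dist_triangle
        have h5 : H.dist v (g i) = 1 := by rw [dist_comm]; exact dist_eq_one_iff_adj.2 hadj
        show s ≤ H.dist (f i) v + 1
        omega
  obtain ⟨w, hw1, hw2⟩ := cover (PG H s) (p z) (L1 ++ L2) hL M (by
    intro x hx
    obtain ⟨i, _, rfl⟩ := List.mem_map.1 hx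
    exact hreach' i)
  let F : Fin (w.length + 1) → V := fun i => (w.getVert i.1).1
  let G' : Fin (w.length + 1) → V := fun i => (w.getVert i.1).2
  have hadjF : ∀ i : ℕ, i < w.length → (PG H s).Adj (w.getVert i) (w.getVert (i + 1)) :=
    fun i hi => w.adj_getVert_succ hi
  have hFw : IsWeakHom (pathGraph (w.length + 1)) H F := by
    intro u v huv
    rw [pathGraph_adj] at huv
    rcases huv with h | h
    · have h1 := (hadjF u.1 (by omega)).2.1
      rw [h] at h1
      exact h1
    · have h1 := (hadjF v.1 (by omega)).2.1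
      rw [h] at h1
      exact h1.imp Eq.symm (fun h => h.symm)
  have hGw : IsWeakHom (pathGraph (w.length + 1)) H G' := by
    intro u v huv
    rw [pathGraph_adj] at huv
    rcases huv with h | h
    · have h1 := (hadjF u.1 (by omega)).2.2.1
      rw [h] at h1
      exact h1
    · have h1 := (hadjF v.1 (by omega)).2.2.1
      rw [h] at h1
      exact h1.imp Eq.symm (fun h => h.symm)
  have hMs : ∀ i : Fin n, ∃ j : Fin (w.length + 1), w.getVert j.1 = p i := by
    intro i
    have h1 := hw2 (p i) (List.mem_map.2 ⟨i, by simp, rfl⟩)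
    obtain ⟨j, hj, hj'⟩ := Walk.mem_support_iff_exists_getVert.1 h1
    exact ⟨⟨j, by omega⟩, hj⟩
  have hedge : ∀ a b : V × V, s(a, b) ∈ w.edges → ∃ x y : Fin (w.length + 1),
      (pathGraph (w.length + 1)).Adj x y ∧ w.getVert x.1 = a ∧ w.getVert y.1 = b := by
    intro a b hab
    have h1 : w.toSubgraph.Adj a b := (Walk.mem_edges_toSubgraph w).2 hab
    obtain ⟨i, hi, hi'⟩ := (Walk.toSubgraph_adj_iff w).1 h1
    rcases Sym2.eq_iff.1 hi with ⟨h2, h3⟩ | ⟨h2, h3⟩
    · exact ⟨⟨i, by omega⟩, ⟨i + 1, by omega⟩, by rw [pathGraph_adj]; left; rfl, h2, h3⟩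
    · exact ⟨⟨i + 1, by omega⟩, ⟨i, by omega⟩, by rw [pathGraph_adj]; right; rfl, h3, h2⟩
  have hFs : IsEdgeSurj (pathGraph (w.length + 1)) H F := by
    constructor
    · intro v
      obtain ⟨i, hi⟩ := hfs v
      obtain ⟨j, hj⟩ := hMs i
      exact ⟨j, by show (w.getVert j.1).1 = v; rw [hj]; exact hi⟩
    · intro u v huv
      obtain ⟨i, hi⟩ := hfs u
      have h1 : (p i, (v, g i)) ∈ L1 ++ L2 := by
        refine List.mem_append.2 (Or.inl (List.mem_map.2 ⟨(i, v), ?_, rfl⟩))
        simp only [Finset.mem_toList, Finset.mem_filter, Finset.mem_univ, true_and]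
        rw [hi]; exact huv
      obtain ⟨x, y, hxy, hx, hy⟩ := hedge _ _ (hw1 _ h1)
      refine ⟨x, y, hxy, ?_, ?_⟩
      · show (w.getVert x.1).1 = u; rw [hx]; exact hi
      · show (w.getVert y.1).1 = v; rw [hy]
  have hGs : IsEdgeSurj (pathGraph (w.length + 1)) H G' := by
    constructor
    · intro v
      obtain ⟨i, hi⟩ := hgs v
      obtain ⟨j, hj⟩ := hMs i
      exact ⟨j, by show (w.getVert j.1).2 = v; rw [hj]; exact hi⟩
    · intro u v huv
      obtain ⟨i, hi⟩ := hgs u
      have h1 : (p i, (f i, v)) ∈ L1 ++ L2 := by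
        refine List.mem_append.2 (Or.inr (List.mem_map.2 ⟨(i, v), ?_, rfl⟩))
        simp only [Finset.mem_toList, Finset.mem_filter, Finset.mem_univ, true_and]
        rw [hi]; exact huv
      obtain ⟨x, y, hxy, hx, hy⟩ := hedge _ _ (hw1 _ h1)
      refine ⟨x, y, hxy, ?_, ?_⟩
      · show (w.getVert x.1).2 = u; rw [hx]; exact hi
      · show (w.getVert y.1).2 = v; rw [hy]
  refine ⟨minDist H F G', ⟨w.length + 1, F, G', hFw, hGw, hFs, hGs, rfl⟩, ?_⟩
  -- distance bound
  have hall : ∀ i : Fin (w.length + 1), s ≤ H.dist (F i) (G' i) + 1 := by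
    intro i
    show s ≤ H.dist (w.getVert i.1).1 (w.getVert i.1).2 + 1
    by_cases hi : i.1 < w.length
    · exact (hadjF i.1 hi).2.2.2.1
    · have hi' : i.1 = w.length := by omega
      rw [hi', Walk.getVert_length]
      exact (hd z).trans (Nat.le_succ _)
  have h6 : s - 1 ≤ minDist H F G' := le_minDist H F G' (s - 1) (fun i => by have := hall i; omega)
  omega

theorem vertexValues_bdd {V : Type} [Fintype V] (H : SimpleGraph V) (hH : H.Connected) :
    ∀ m ∈ vertexValues H, m ≤ Fintype.card V * Fintype.card V * 1 + ∑ a : V, ∑ b : V, H.dist a b := by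
  classical
  rintro m ⟨n, f, g, hf, hg, hfs, hgs, rfl⟩
  have hne : Nonempty V := hH.nonempty
  obtain ⟨v⟩ := hne
  obtain ⟨x, _⟩ := hfs v
  have h1 := minDist_le H f g x
  have h2 : H.dist (f x) (g x) ≤ ∑ b : V, H.dist (f x) b :=
    Finset.single_le_sum (f := fun b => H.dist (f x) b) (fun _ _ => Nat.zero_le _) (Finset.mem_univ _)
  have h3 : ∑ b : V, H.dist (f x) b ≤ ∑ a : V, ∑ b : V, H.dist a b :=
    Finset.single_le_sum (f := fun a => ∑ b : V, H.dist a b) (fun _ _ => Nat.zero_le _) (Finset.mem_univ _)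
  omega

theorem edge_sub_vertex {V : Type} (H : SimpleGraph V) : edgeValues H ⊆ vertexValues H := by
  rintro m ⟨n, f, g, hf, hg, hfs, hgs, rfl⟩
  exact ⟨n, f, g, hf, hg, hfs.1, hgs.1, rfl⟩

theorem gap_le {V : Type} [Fintype V] (H : SimpleGraph V) (hH : H.Connected) :
    strongVertexSpan H ≤ strongEdgeSpan H + 1 := by
  have hb : BddAbove (vertexValues H) := ⟨_, fun m hm => vertexValues_bdd H hH m hm⟩
  by_cases hne : (vertexValues H).Nonempty
  · have h1 : strongVertexSpan H ∈ vertexValues H := Nat.sSup_mem hne hb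
    obtain ⟨m', hm', hle⟩ := upper H hH _ h1
    have h2 : m' ≤ strongEdgeSpan H := le_csSup (hb.mono (edge_sub_vertex H)) hm'
    omega
  · have : vertexValues H = ∅ := Set.not_nonempty_iff_eq_empty.1 hne
    unfold strongVertexSpan
    rw [this]
    simp

/-! ### The extremal graph on six vertices -/

/-- adjacency table of the extremal graph -/
def adjB (a b : Fin 6) : Bool :=
  (a, b) ∈ ([(0,1),(0,3),(0,4),(0,5),(1,2),(1,3),(1,4),(2,3),(2,4),
    (1,0),(3,0),(4,0),(5,0),(2,1),(3,1),(4,1),(3,2),(4,2)] : List (Fin 6 × Fin 6))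

/-- the extremal graph with edges `01 03 04 05 12 13 14 23 24` -/
def H6 : SimpleGraph (Fin 6) where
  Adj a b := adjB a b = true
  symm := ⟨by decide⟩
  loopless := ⟨by decide⟩

instance : DecidableRel H6.Adj := fun a b => inferInstanceAs (Decidable (adjB a b = true))

theorem H6_conn : H6.Connected := by
  have h : ∀ v : Fin 6, H6.Reachable 0 v := by
    have a1 : H6.Adj 0 1 := by decide
    have a3 : H6.Adj 0 3 := by decide
    have a4 : H6.Adj 0 4 := by decide
    have a5 : H6.Adj 0 5 := by decide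
    have a12 : H6.Adj 1 2 := by decide
    intro v
    fin_cases v
    · exact Reachable.refl _
    · exact a1.reachable
    · exact a1.reachable.trans a12.reachable
    · exact a3.reachable
    · exact a4.reachable
    · exact a5.reachable
  exact Connected.mk (fun u v => (h u).symm.trans (h v))

theorem H6_dist (a b : Fin 6) : 2 ≤ H6.dist a b ↔ a ≠ b ∧ ¬ H6.Adj a b := by
  constructor
  · intro h
    refine ⟨?_, ?_⟩
    · rintro rfl
      rw [dist_self] at h
      omega
    · intro hadj
      rw [dist_eq_one_iff_adj.2 hadj] at h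
      omega
  · rintro ⟨h1, h2⟩
    have h3 : H6.dist a b ≠ 0 := fun h => h1 ((H6_conn.dist_eq_zero_iff).1 h)
    have h4 : H6.dist a b ≠ 1 := fun h => h2 (dist_eq_one_iff_adj.1 h)
    omega

/-- positions of the first walker -/
def f6 : Fin 7 → Fin 6 := ![1, 2, 3, 0, 4, 0, 5]

/-- positions of the second walker -/
def g6 : Fin 7 → Fin 6 := ![5, 0, 4, 2, 3, 2, 1]

theorem H6_vertex : 2 ≤ strongVertexSpan H6 := by
  have hb : BddAbove (vertexValues H6) := ⟨_, fun m hm => vertexValues_bdd H6 H6_conn m hm⟩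
  have hmem : minDist H6 f6 g6 ∈ vertexValues H6 := by
    refine ⟨7, f6, g6, ?_, ?_, ?_, ?_, rfl⟩
    · intro u v huv
      rw [pathGraph_adj] at huv
      revert u v
      decide
    · intro u v huv
      rw [pathGraph_adj] at huv
      revert u v
      decide
    · unfold Function.Surjective; decide
    · unfold Function.Surjective; decide
  have h1 := le_csSup hb hmem
  have h2 : 2 ≤ minDist H6 f6 g6 := by
    apply le_minDist
    intro u
    rw [H6_dist]
    revert u
    decide
  exact h2.trans h1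

theorem H6_edge : strongEdgeSpan H6 ≤ 1 := by
  have key : ∀ m ∈ edgeValues H6, m ≤ 1 := by
    rintro m ⟨n, f, g, hf, hg, hfs, hgs, rfl⟩
    by_contra hcon
    have hcon' : 2 ≤ minDist H6 f g := by omega
    have hd : ∀ u, f u ≠ g u ∧ ¬ H6.Adj (f u) (g u) := fun u =>
      (H6_dist _ _).1 (hcon'.trans (minDist_le H6 f g u))
    obtain ⟨x, y, hxy, hx, hy⟩ := hfs.2 0 1 (by decide)
    have h1 := hd x
    have h2 := hd y
    have h3 := hg x y hxy
    rw [hx] at h1
    rw [hy] at h2
    generalize g x = a at *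
    generalize g y = b at *
    clear hd hxy hx hy hfs hgs hf hg hcon hcon'
    revert a b
    decide
  by_cases hne : (edgeValues H6).Nonempty
  · exact csSup_le hne key
  · have : edgeValues H6 = ∅ := Set.not_nonempty_iff_eq_empty.1 hne
    unfold strongEdgeSpan
    rw [this]
    simp

/-- The maximum of `σ_V(H) - σ_E(H)` over all finite connected graphs `H` is exactly `1`. -/
theorem result : IsGreatest {d : ℤ | ∃ (V : Type) (_ : Fintype V) (H : SimpleGraph V),
    H.Connected ∧ d = (strongVertexSpan H : ℤ) - (strongEdgeSpan H : ℤ)} 1 := by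
  constructor
  · refine ⟨Fin 6, inferInstance, H6, H6_conn, ?_⟩
    have h1 := H6_vertex
    have h2 := H6_edge
    have h3 := gap_le H6 H6_conn
    omega
  · rintro d ⟨V, _, H, hH, rfl⟩
    have := gap_le H hH
    omega

end Pool.Agent.Results.MP_5796a1_co.SpanGap
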